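import Mathlib
import Pool.Agent.H72.BT.Defs
import Pool.Agent.H72.BT.Final

/-!
# MP_45f016_ag: the negated form of Q1

Over every algebraically closed field `k` there are a projective flat family `F : X → B` with
integral total space, whose fibres over the `k`-points of `B` are varieties birational to one
another over `k`, and a `k`-point `b` of `B` at which there is no birational trivialization of
the family, whatever the model `X₀` is.
-/

open CategoryTheory AlgebraicGeometry

universe u

namespace Pool.Agent.Results.MP_45f016_ag.NoTrivialization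

open Pool.Agent.H72.BT

theorem result (k : Type u) [Field k] [IsAlgClosed k] :
    ∃ (F : Family k) (b : Pt k ⟶ F.B), b ≫ F.sB = 𝟙 _ ∧
      ∀ (X₀ : Scheme.{u}) (s₀ : X₀ ⟶ Pt k), IsEmpty (Trivialization F b s₀) := by
  obtain ⟨ε, δ, hg⟩ : ∃ ε δ : ℕ, Good k ε δ := by
    by_cases h2 : (2 : k) = 0
    · exact ⟨1, 0, Or.inr ⟨rfl, rfl, h2⟩⟩
    · exact ⟨0, 1, Or.inl ⟨rfl, rfl, h2⟩⟩
  refine ⟨Fam hg, pt k 0, pt_sBB k 0, fun X₀ s₀ => ⟨fun T => ?_⟩⟩
  have h1 : IsIntegral T.B' := T.isVariety.isIntegral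
  have h2 : Surjective T.π := T.surjective
  have h3 : Nonempty T.U.toScheme := ⟨(T.b' ≫ T.π) (IsLocalRing.closedPoint k)⟩
  have h4 : IrreducibleSpace (Fam hg).B := inferInstanceAs (IrreducibleSpace (BB k))
  have h5 : IsDominant T.U.ι := isDominant_of_isOpenImmersion _
  have h5' : IsDominant T.π := inferInstance
  have h6 : IsDominant (T.π ≫ T.U.ι) :=
    MorphismProperty.comp_mem @IsDominant T.π T.U.ι h5' h5
  exact @no_triv k _ _ ε δ hg T.B' X₀ h1 (T.π ≫ T.U.ι) h6 T.b' T.comp_b'
    (T.π ≫ T.U.ι ≫ (Fam hg).sB) (Category.assoc _ _ _).symm s₀ T.Φ T.isOver T.η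
    T.isGenericPoint T.mem_source

end Pool.Agent.Results.MP_45f016_ag.NoTrivialization
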